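import Pool.Agent.H46.VIO.Stmts

/-!
# MED: abc triples of medium height, and the abc inequality for 100% of the triples by radical

Proofs in words: `/team-store/MED_PLAN_helper47.md` and the docstrings.  Module `XXX` is a theorem
`xxx_thm (h1 : S_AAA) ... : S_XXX` in `Pool/Agent/H<k>/MED/XXX.lean` (import this file, namespace
`Pool.MED`).
-/

set_option autoImplicit false

namespace Pool.MED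

open Finset Pool.Agent.H98.ABCR Pool.SHA

/-! ## Part A: roots modulo `M` -/

/-- RTS: `e`-th roots of unity modulo `M` (cyclic groups for odd prime powers, `LTE` or
`orderOf_five` for powers of two, Chinese remainders) -/
def S_RTS : Prop := ∀ (M e : ℕ) (Z : Finset (ZMod M)), 0 < M → 0 < e → (∀ y ∈ Z, y ^ e = 1) →
  Z.card ≤ (2 * e) ^ M.primeFactors.card

/-- RTN: numbers `≤ N` with the same `e`-th power modulo `M` -/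
def S_RTN : Prop := ∀ (M e N : ℕ) (Z : Finset ℕ), 0 < M → 0 < e →
  (∀ x ∈ Z, x.Coprime M ∧ x ≤ N) → (∀ x ∈ Z, ∀ y ∈ Z, x ^ e ≡ y ^ e [MOD M]) →
  Z.card ≤ (2 * e) ^ M.primeFactors.card * (N / M + 1)

/-- RTP: coprime pairs of numbers `< R`, `R ^ 2 ≤ M`, with the same `e`-th power of the ratio
modulo `M`: the ratio modulo `M` determines the pair -/
def S_RTP : Prop := ∀ (M e R : ℕ) (Z : Finset (ℕ × ℕ)), 0 < M → 0 < e → R ^ 2 ≤ M →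
  (∀ z ∈ Z, z.1.Coprime z.2 ∧ z.1 < R ∧ z.2 < R ∧ z.1.Coprime M ∧ z.2.Coprime M) →
  (∀ z ∈ Z, ∀ w ∈ Z, (z.1 * w.2) ^ e ≡ (w.1 * z.2) ^ e [MOD M]) →
  Z.card ≤ (2 * e) ^ M.primeFactors.card

/-- ENE: energy.  `φ q` = number of the `(x1, x2)` with `(x1, x2, q) ∈ W`; Cauchy-Schwarz over `q`;
`∑ φ q ^ 2 ≤ 10 E * E_x`, where `E_x` counts the quadruples `(x1, x2, x1', x2')` with
`x1 ^ e1 * x2 ^ e2 ≡ x1' ^ e1 * x2' ^ e2` modulo `r ^ 2`: `x2 ≠ x2'`: `≤ 2 E P1 ^ 2` by RTP;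
`x2 = x2'`: `≤ 10 E P1 P2` by RTN.  So `W.card ^ 2 ≤ Q * (10 E) * (10 E P1 (P1 + P2))`. -/
def S_ENE : Prop := ∀ (r E e1 e2 f P1 P2 Q : ℕ) (A B : ℤ) (W : Finset (ℕ × ℕ × ℕ)), r.Prime →
  1 ≤ e1 → e1 ≤ E → 1 ≤ e2 → e2 ≤ E → 1 ≤ f → f ≤ E → ¬ (r : ℤ) ∣ A → ¬ (r : ℤ) ∣ B →
  P1 ≤ 4 * r ^ 2 → Q ≤ 4 * r ^ 2 →
  (∀ w ∈ W, w.1 ≤ P1 ∧ w.2.1 ≤ P2 ∧ w.2.2 ≤ Q ∧ w.2.1.Prime ∧ w.2.1 < r ∧ ¬ r ∣ w.1 ∧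
    ¬ r ∣ w.2.2 ∧
    (r : ℤ) ^ 2 ∣ A * (w.1 : ℤ) ^ e1 * (w.2.1 : ℤ) ^ e2 - B * (w.2.2 : ℤ) ^ f) →
  (W.card : ℝ) ≤ 10 * E * Real.sqrt (Q * (P1 * (P1 + P2)))

/-! ## Part B: counting -/

/-- ROOTS: `x ^ e` divides the coordinate `i` exactly up to `A`, `M` divides the coordinate `j`,
`k` is the third coordinate.  (`x = 1`, `M = 1`: two radicals of product `≤ Z`.) -/
def OptR (E : ℕ) (Z : ℝ) (v : ℕ × ℕ) : Prop := ∃ (i j k : Fin 3) (e x A M : ℕ),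
  i ≠ j ∧ i ≠ k ∧ j ≠ k ∧ 1 ≤ e ∧ e ≤ E ∧ coord v i = A * x ^ e ∧ M ∣ coord v j ∧
  (rad (coord v k) : ℝ) * rad A * rad M ≤ Z ∧
  (rad (coord v k) : ℝ) * rad A * rad M * x ≤ Z * M

/-- ENERGY -/
def OptE (E : ℕ) (Z : ℝ) (v : ℕ × ℕ) : Prop := ∃ (i j k : Fin 3)
  (e1 e2 f x1 x2 q r A B : ℕ), i ≠ j ∧ i ≠ k ∧ j ≠ k ∧
  1 ≤ e1 ∧ e1 ≤ E ∧ 1 ≤ e2 ∧ e2 ≤ E ∧ 1 ≤ f ∧ f ≤ E ∧
  coord v i = A * x1 ^ e1 * x2 ^ e2 ∧ coord v k = B * q ^ f ∧ r.Prime ∧ r ^ 2 ∣ coord v j ∧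
  x2.Prime ∧ x2 < r ∧ x1 ≤ r ^ 2 ∧ q ≤ r ^ 2 ∧
  (rad A : ℝ) * rad B * r * Real.sqrt (q * (x1 * (x1 + x2))) ≤ Z

/-- FLAT: two coordinates are the same power of a prime near `X ^ (1 / 3)`, up to factors
`≤ X ^ τ`; the third one is `≤ X ^ (1 / 3 + τ)` or divisible by the square of such a prime -/
def OptF (X τ : ℝ) (v : ℕ × ℕ) : Prop := ∃ (i j k : Fin 3) (m B C y z : ℕ),
  i ≠ j ∧ i ≠ k ∧ j ≠ k ∧ k ≠ 2 ∧ 2 ≤ m ∧ coord v i = B * y ^ m ∧ coord v j = C * z ^ m ∧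
  (B : ℝ) ≤ X ^ τ ∧ (C : ℝ) ≤ X ^ τ ∧ y.Prime ∧ z.Prime ∧
  X ^ (1 / 3 - τ) ≤ y ∧ (y : ℝ) ≤ X ^ (1 / 3 + τ) ∧
  X ^ (1 / 3 - τ) ≤ z ∧ (z : ℝ) ≤ X ^ (1 / 3 + τ) ∧
  ((coord v k : ℝ) ≤ X ^ (1 / 3 + τ) ∨
    ∃ q : ℕ, q.Prime ∧ q ^ 2 ∣ coord v k ∧ X ^ (1 / 3 - τ) ≤ q ∧ (q : ℝ) ≤ X ^ (1 / 3 + τ))

/-- CNR: given `i, j, k, e, coord k, A, M` there are `≤ (2 E) ^ ω(M) * 2 Z / (rad (coord k) rad A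
rad M)` values of `x` (RTN); sum by `S_SRD`; `S_OMB` for `ω(M)`. -/
def S_CNR : Prop := ∀ (E : ℕ) (κ ε : ℝ), 0 < κ → 0 < ε → ∃ C : ℝ, 1 ≤ C ∧
  ∀ (X Z : ℝ) (F : Finset (ℕ × ℕ)), 1 ≤ X → 0 ≤ Z →
    (∀ v ∈ F, IsTri v ∧ (RR v : ℝ) ≤ X ∧ hh v ≤ κ * Real.log X ∧ OptR E Z v) →
    (F.card : ℝ) ≤ C * X ^ ε * Z

/-- CNE: given `i, j, k, e1, e2, f, A, B, r` and the dyadic classes `2 ^ (a - 1) ≤ x1 < 2 ^ a`, ...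
there are `≤ 30 E * Z / (rad A rad B r)` triples (ENE with `P1 = 2 ^ a ≤ 2 x1`, ...; sign of `B`);
sum over `A, B` by `S_SRD`, over `r ≤ X` harmonic. -/
def S_CNE : Prop := ∀ (E : ℕ) (κ ε : ℝ), 0 < κ → 0 < ε → ∃ C : ℝ, 1 ≤ C ∧
  ∀ (X Z : ℝ) (F : Finset (ℕ × ℕ)), 1 ≤ X → 0 ≤ Z →
    (∀ v ∈ F, IsTri v ∧ (RR v : ℝ) ≤ X ∧ hh v ≤ κ * Real.log X ∧ OptE E Z v) →
    (F.card : ℝ) ≤ C * X ^ ε * Z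

/-- FLT: pairs of one class.  If `D` divides all `z y' - z' y` (or `D = 1`) and
`|z y' - z' y| ≤ T` for all pairs, the pairs number at most `(2 T / D + 1) (P / p + 1)`:
fix a pair `(y0, z0)`; for a given value of `z y0 - z0 y` the `y` are congruent modulo `y0`. -/
def S_FLT : Prop := ∀ (D : ℕ) (T p P : ℝ) (Z : Finset (ℕ × ℕ)), 0 < D → 0 ≤ T → 0 < p → 0 ≤ P →
  (∀ w ∈ Z, w.1.Prime ∧ w.2.Prime ∧ w.1 ≠ w.2 ∧ p ≤ w.1 ∧ (w.1 : ℝ) ≤ P) →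
  (∀ w ∈ Z, ∀ u ∈ Z, (D : ℤ) ∣ (w.2 : ℤ) * u.1 - u.2 * w.1 ∧
    |((w.2 : ℝ) * u.1 - u.2 * w.1)| ≤ T) →
  (Z.card : ℝ) ≤ (2 * T / D + 1) * (P / p + 1)

/-- CNF: flat triples.  Given `i, j, k, m ≤ hh v / log 2, B, C`: if `coord k ≤ X ^ (1/3 + τ)` then
`|(z y0) ^ m - (z0 y) ^ m| ≤ U (y0 ^ m + y ^ m) / C` gives `|z y0 - z0 y| ≤ 2 X ^ (1/3 + 3 τ)`, FLT
with `D = 1`; otherwise fix also `q` and the class of the ratio modulo `q ^ 2` (`≤ 2 m` classes, as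
in RTP): FLT with `D = q ^ 2`, `T = X ^ (2/3 + 2 τ)`. -/
def S_CNF : Prop := ∀ κ τ : ℝ, 0 < κ → 0 < τ → τ ≤ 1 / 100 → ∃ C : ℝ, 1 ≤ C ∧
  ∀ (X : ℝ) (F : Finset (ℕ × ℕ)), 1 ≤ X →
    (∀ v ∈ F, IsTri v ∧ (RR v : ℝ) ≤ X ∧ hh v ≤ κ * Real.log X ∧ OptF X τ v) →
    (F.card : ℝ) ≤ C * X ^ (1 / 3 + 20 * τ)

/-! ## Part C: choice -/

/-- cost of the coordinate `t` -/
noncomputable def cst (s : Finset ℕ) (c : ℕ → ℝ) (i : ℕ → Fin 3) (t : Fin 3) : ℝ :=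
  ∑ q ∈ s.filter (fun q => i q = t), c q

/-- size of the coordinate `t` -/
noncomputable def siz (s : Finset ℕ) (c : ℕ → ℝ) (e : ℕ → ℕ) (i : ℕ → Fin 3) (t : Fin 3) : ℝ :=
  ∑ q ∈ s.filter (fun q => i q = t), (e q : ℝ) * c q

/-- CHR: real items `q ∈ s` with cost `c q`, exponent `e q`, coordinate `i q`; `a, b` are the two
large coordinates.  See the page. -/
def S_CHR : Prop := ∀ ε κ0 τ : ℝ, 0 < ε → 1 ≤ κ0 → 0 < τ → ∃ (c0 : ℝ) (E : ℕ), 0 < c0 ∧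
  ∀ (s : Finset ℕ) (c : ℕ → ℝ) (e : ℕ → ℕ) (i : ℕ → Fin 3) (a b d : Fin 3) (κ : ℝ),
    a ≠ b → a ≠ d → b ≠ d → (∀ q ∈ s, 0 < c q ∧ 1 ≤ e q) → ∑ q ∈ s, c q ≤ 1 →
    1 / 3 + ε ≤ κ → κ ≤ κ0 → κ - c0 ≤ siz s c e i a → κ - c0 ≤ siz s c e i b →
    siz s c e i a ≤ κ → siz s c e i b ≤ κ → siz s c e i d ≤ κ →
    -- roots
    (∃ (j k l : Fin 3) (n : ℕ) (Y D : Finset ℕ), j ≠ k ∧ j ≠ l ∧ k ≠ l ∧ 1 ≤ n ∧ n ≤ E ∧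
      Y ⊆ s ∧ D ⊆ s ∧ (∀ q ∈ Y, i q = j ∧ e q = n) ∧ (∀ q ∈ D, i q = k) ∧
      cst s c i l + (cst s c i j - ∑ q ∈ Y, c q) + ∑ q ∈ D, c q ≤ 2 / 3 - c0 ∧
      cst s c i l + (cst s c i j - ∑ q ∈ Y, c q) + ∑ q ∈ D, c q +
        (∑ q ∈ Y, c q - ∑ q ∈ D, (e q : ℝ) * c q) ≤ 2 / 3 - c0) ∨
    -- energy
    (∃ (j k l : Fin 3) (n : ℕ) (Y : Finset ℕ) (x q r : ℕ), j ≠ k ∧ j ≠ l ∧ k ≠ l ∧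
      1 ≤ n ∧ n ≤ E ∧ Y ⊆ s ∧ (∀ p ∈ Y, i p = j ∧ e p = n) ∧ x ∈ s ∧ x ∉ Y ∧ i x = j ∧ e x ≤ E ∧
      q ∈ s ∧ i q = l ∧ e q ≤ E ∧ r ∈ s ∧ i r = k ∧ 2 ≤ e r ∧ c x ≤ c r ∧ c q ≤ 2 * c r ∧
      ∑ p ∈ Y, c p ≤ 2 * c r ∧
      (cst s c i j - ∑ p ∈ Y, c p - c x) + (cst s c i l - c q) + c r +
        (c q + ∑ p ∈ Y, c p + max (∑ p ∈ Y, c p) (c x)) / 2 ≤ 2 / 3 - c0) ∨
    -- flat
    (∃ y z : ℕ, y ∈ s ∧ z ∈ s ∧ i y = a ∧ i z = b ∧ e y = e z ∧ 2 ≤ e y ∧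
      1 / 3 - τ ≤ c y ∧ c y ≤ 1 / 3 + τ ∧ 1 / 3 - τ ≤ c z ∧ c z ≤ 1 / 3 + τ ∧
      siz s c e i a - (e y : ℝ) * c y ≤ τ ∧ siz s c e i b - (e z : ℝ) * c z ≤ τ ∧
      (siz s c e i d ≤ 1 / 3 + τ ∨
        ∃ q ∈ s, i q = d ∧ 2 ≤ e q ∧ 1 / 3 - τ ≤ c q ∧ c q ≤ 1 / 3 + τ))

/-- CHT: choice for triples.  `c q = log q / log X`, `e q` the exponent, `κ = hh v / log X`,
`a = 2`, `b` the larger of the two other coordinates.  (CHR with `τ / 2`; `c0` is halved for the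
factors `√2`, `log 2 / log X`.) -/
def S_CHT : Prop := ∀ ε κ0 τ : ℝ, 0 < ε → 1 ≤ κ0 → 0 < τ → ∃ (c0 X0 : ℝ) (E : ℕ), 0 < c0 ∧
  3 ≤ X0 ∧ ∀ (X : ℝ) (v : ℕ × ℕ), X0 ≤ X → IsTri v → (RR v : ℝ) ≤ X →
    (1 / 3 + ε) * Real.log X ≤ hh v → hh v ≤ κ0 * Real.log X →
    OptR E (X ^ (2 / 3 - c0)) v ∨ OptE E (X ^ (2 / 3 - c0)) v ∨ OptF X τ v

/-! ## Part D: assembly -/

/-- MDD: triples of medium height -/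
def S_MDD : Prop := ∀ ε κ0 : ℝ, 0 < ε → 1 ≤ κ0 → ∃ c0 C : ℝ, 0 < c0 ∧ 1 ≤ C ∧
  ∀ (X : ℝ) (F : Finset (ℕ × ℕ)), 1 ≤ X →
    (∀ v ∈ F, IsTri v ∧ (RR v : ℝ) ≤ X ∧ (1 / 3 + ε) * Real.log X ≤ hh v ∧
      hh v ≤ κ0 * Real.log X) → (F.card : ℝ) ≤ C * X ^ (2 / 3 - c0)

/-- TOF: all heights `≥ (1 / 3 + ε) log X` (from MDD and `Pool.VIO.S_MAV`) -/
def S_TOF : Prop := ∀ ε : ℝ, 0 < ε → ∃ c0 C : ℝ, 0 < c0 ∧ 1 ≤ C ∧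
  ∀ (X : ℝ) (F : Finset (ℕ × ℕ)), 1 ≤ X →
    (∀ v ∈ F, IsTri v ∧ (RR v : ℝ) ≤ X ∧ (1 / 3 + ε) * Real.log X ≤ hh v) →
    (F.card : ℝ) ≤ C * X ^ (2 / 3 - c0)

/-- FIA: THEOREM F: `a + b ≤ rad ^ (1 / 3 + ε)` for all abc triples outside a set of relative
density `O (X ^ (-c0))`.  (Dyadic in the radical as for `Pool.VIO.S_FIV`.) -/
def S_FIA : Prop := ∀ ε : ℝ, 0 < ε → ∃ c0 C : ℝ, 0 < c0 ∧ ∀ X : ℝ, 2 ≤ X →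
  (Pool.VIO.Tri X).Finite ∧ X ^ (2 / 3 : ℝ) / 32 ≤ ((Pool.VIO.Tri X).ncard : ℝ) ∧
    ((Pool.VIO.Exc (1 / 3 + ε) X).ncard : ℝ) ≤ C * X ^ (2 / 3 - c0) ∧
    ((Pool.VIO.Exc (1 / 3 + ε) X).ncard : ℝ) ≤ C * X ^ (-c0) * (Pool.VIO.Tri X).ncard

end Pool.MED
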