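import Pool.Agent.H47.MED.Stmts

/-!
# MED, module CHR: choice of the known primes (real items)
-/

set_option autoImplicit false

namespace Pool.MED

open Finset

private theorem chr_sum3 (s : Finset ℕ) (c : ℕ → ℝ) (i : ℕ → Fin 3) :
    ∑ q ∈ s, c q = cst s c i 0 + cst s c i 1 + cst s c i 2 := by
  rw [← Finset.sum_fiberwise s i c, Fin.sum_univ_three]; rfl

/-- items of exponent one -/
private def chO (s : Finset ℕ) (e : ℕ → ℕ) (i : ℕ → Fin 3) (t : Fin 3) : Finset ℕ :=
  s.filter (fun q => i q = t ∧ e q = 1)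

/-- small items of exponent at least two -/
private noncomputable def chS (s : Finset ℕ) (c : ℕ → ℝ) (e : ℕ → ℕ) (i : ℕ → Fin 3) (c0 : ℝ)
    (t : Fin 3) : Finset ℕ :=
  s.filter (fun q => i q = t ∧ e q ≠ 1 ∧ (e q : ℝ) * c q < 6 * c0)

/-- big items -/
private noncomputable def chB (s : Finset ℕ) (c : ℕ → ℝ) (e : ℕ → ℕ) (i : ℕ → Fin 3) (c0 : ℝ)
    (t : Fin 3) : Finset ℕ :=
  s.filter (fun q => i q = t ∧ e q ≠ 1 ∧ 6 * c0 ≤ (e q : ℝ) * c q)

private theorem chr_split (s : Finset ℕ) (c : ℕ → ℝ) (e : ℕ → ℕ) (i : ℕ → Fin 3) (c0 : ℝ)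
    (t : Fin 3) (f : ℕ → ℝ) :
    ∑ q ∈ s.filter (fun q => i q = t), f q =
      ∑ q ∈ chO s e i t, f q + ∑ q ∈ chS s c e i c0 t, f q + ∑ q ∈ chB s c e i c0 t, f q := by
  unfold chO chS chB
  simp only [Finset.sum_filter, ← Finset.sum_add_distrib]
  apply Finset.sum_congr rfl
  intro q _
  by_cases h1 : i q = t
  · by_cases h2 : e q = 1
    · simp [h1, h2]
    · by_cases h3 : (e q : ℝ) * c q < 6 * c0
      · have h4 : ¬ (6 * c0 ≤ (e q : ℝ) * c q) := not_le.mpr h3
        simp [h1, h2, h3, h4]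
      · have h4 : 6 * c0 ≤ (e q : ℝ) * c q := not_lt.mp h3
        simp [h1, h2, h3, h4]
  · simp [h1]

private theorem chr_third (j l : Fin 3) (h : j ≠ l) : ∃ k : Fin 3, j ≠ k ∧ k ≠ l := by
  revert h; revert j l; decide

private theorem chr_other (t : Fin 3) : ∃ j l : Fin 3, j ≠ t ∧ j ≠ l ∧ t ≠ l := by
  revert t; decide

private theorem chr_cov (a b d k : Fin 3) (h1 : a ≠ b) (h2 : a ≠ d) (h3 : b ≠ d) :
    k = a ∨ k = b ∨ k = d := by
  revert h1 h2 h3; revert a b d k; decide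

private theorem chr_perm (s : Finset ℕ) (c : ℕ → ℝ) (i : ℕ → Fin 3) (j k l : Fin 3)
    (h1 : j ≠ k) (h2 : j ≠ l) (h3 : k ≠ l) :
    ∑ q ∈ s, c q = cst s c i j + cst s c i k + cst s c i l := by
  rw [chr_sum3 s c i]
  fin_cases j <;> fin_cases k <;> fin_cases l <;> simp at h1 h2 h3 ⊢ <;> ring

/-- the negation of ROOTS, in usable form -/
private def NR (s : Finset ℕ) (c : ℕ → ℝ) (e : ℕ → ℕ) (i : ℕ → Fin 3) (c0 : ℝ) (E : ℕ) : Prop :=
  ∀ (j k l : Fin 3) (n : ℕ) (Y D : Finset ℕ), j ≠ k → j ≠ l → k ≠ l → 1 ≤ n → n ≤ E →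
    Y ⊆ s → D ⊆ s → (∀ q ∈ Y, i q = j ∧ e q = n) → (∀ q ∈ D, i q = k) →
    cst s c i l + (cst s c i j - ∑ q ∈ Y, c q) + ∑ q ∈ D, c q ≤ 2 / 3 - c0 →
    cst s c i l + (cst s c i j - ∑ q ∈ Y, c q) + ∑ q ∈ D, c q +
        (∑ q ∈ Y, c q - ∑ q ∈ D, (e q : ℝ) * c q) ≤ 2 / 3 - c0 → False

/-- the negation of ENERGY -/
private def NE (s : Finset ℕ) (c : ℕ → ℝ) (e : ℕ → ℕ) (i : ℕ → Fin 3) (c0 : ℝ) (E : ℕ) : Prop :=
  ∀ (j k l : Fin 3) (n : ℕ) (Y : Finset ℕ) (x q r : ℕ), j ≠ k → j ≠ l → k ≠ l →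
      1 ≤ n → n ≤ E → Y ⊆ s → (∀ p ∈ Y, i p = j ∧ e p = n) → x ∈ s → x ∉ Y → i x = j → e x ≤ E →
      q ∈ s → i q = l → e q ≤ E → r ∈ s → i r = k → 2 ≤ e r → c x ≤ c r → c q ≤ 2 * c r →
      ∑ p ∈ Y, c p ≤ 2 * c r →
      (cst s c i j - ∑ p ∈ Y, c p - c x) + (cst s c i l - c q) + c r +
        (c q + ∑ p ∈ Y, c p + max (∑ p ∈ Y, c p) (c x)) / 2 ≤ 2 / 3 - c0 → False

section facts

variable {s : Finset ℕ} {c : ℕ → ℝ} {e : ℕ → ℕ} {i : ℕ → Fin 3} {c0 κ0 : ℝ} {E : ℕ}

private theorem chr_cst_lt (_hc0 : 0 < c0) (hE1 : 1 ≤ E) (_hsum : ∑ q ∈ s, c q ≤ 1)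
    (hR : NR s c e i c0 E) (j l : Fin 3) (hjl : j ≠ l) :
    2 / 3 - c0 < cst s c i j + cst s c i l := by
  obtain ⟨k, h1, h2⟩ := chr_third j l hjl
  by_contra hcon
  rw [not_lt] at hcon
  refine hR j k l 1 ∅ ∅ h1 hjl h2 le_rfl hE1 (by simp) (by simp) (by simp) (by simp) ?_ ?_
  · simp only [Finset.sum_empty]; linarith
  · simp only [Finset.sum_empty]; linarith

private theorem chr_cst_bd (hc0 : 0 < c0) (hE1 : 1 ≤ E) (hsum : ∑ q ∈ s, c q ≤ 1)
    (hR : NR s c e i c0 E) (t : Fin 3) :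
    1 / 3 - 2 * c0 < cst s c i t ∧ cst s c i t < 1 / 3 + c0 := by
  obtain ⟨j, l, h1, h2, h3⟩ := chr_other t
  have a1 := chr_cst_lt hc0 hE1 hsum hR j l h2
  have a2 := chr_cst_lt hc0 hE1 hsum hR j t h1
  have a3 := chr_cst_lt hc0 hE1 hsum hR t l h3
  have a4 := chr_perm s c i j t l h1 h2 h3
  constructor <;> linarith

/-- key alternative -/
private theorem chr_key (hc0 : 0 < c0) (hE1 : 1 ≤ E) (hsum : ∑ q ∈ s, c q ≤ 1)
    (hR : NR s c e i c0 E) (j k : Fin 3) (hjk : j ≠ k) (n : ℕ) (Y D : Finset ℕ) (hn : 1 ≤ n)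
    (hnE : n ≤ E) (hY : Y ⊆ s) (hD : D ⊆ s) (hYj : ∀ q ∈ Y, i q = j ∧ e q = n)
    (hDk : ∀ q ∈ D, i q = k) :
    ∑ q ∈ Y, c q - 3 * c0 < ∑ q ∈ D, c q ∨
      ∑ q ∈ D, (e q : ℝ) * c q - ∑ q ∈ D, c q < 3 * c0 := by
  obtain ⟨l, h1, h2⟩ := chr_third j k hjk
  by_contra hcon
  rw [not_or, not_lt, not_lt] at hcon
  obtain ⟨g1, g2⟩ := hcon
  have a1 := (chr_cst_bd hc0 hE1 hsum hR k).1
  have a4 := chr_perm s c i j k l hjk h1 h2.symm
  refine hR j k l n Y D hjk h1 h2.symm hn hnE hY hD hYj hDk ?_ ?_ <;> linarith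

/-- big items are big -/
private theorem chr_big (hc0 : 0 < c0) (hE1 : 1 ≤ E) (hs : ∀ q ∈ s, 0 < c q ∧ 1 ≤ e q)
    (hsum : ∑ q ∈ s, c q ≤ 1)
    (hR : NR s c e i c0 E) (j k : Fin 3) (hjk : j ≠ k) (n : ℕ) (Y : Finset ℕ) (hn : 1 ≤ n)
    (hnE : n ≤ E) (hY : Y ⊆ s) (hYj : ∀ q ∈ Y, i q = j ∧ e q = n) (q : ℕ)
    (hq : q ∈ chB s c e i c0 k) : ∑ p ∈ Y, c p - 3 * c0 < c q := by
  unfold chB at hq
  rw [Finset.mem_filter] at hq
  obtain ⟨hqs, hqk, hq1, hq6⟩ := hq
  have h := chr_key hc0 hE1 hsum hR j k hjk n Y {q} hn hnE hY (by simpa using hqs) hYj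
    (by intro p hp; rw [Finset.mem_singleton] at hp; rw [hp]; exact hqk)
  simp only [Finset.sum_singleton] at h
  rcases h with h | h
  · exact h
  · exfalso
    have h2 : (2 : ℝ) ≤ (e q : ℝ) := by
      have := (hs q hqs).2
      have h3 : 2 ≤ e q := by omega
      exact_mod_cast h3
    have h4 := (hs q hqs).1
    nlinarith

/-- the small items together -/
private theorem chr_small (hc0 : 0 < c0) (hE1 : 1 ≤ E) (hs : ∀ q ∈ s, 0 < c q ∧ 1 ≤ e q)
    (hsum : ∑ q ∈ s, c q ≤ 1)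
    (hR : NR s c e i c0 E) (j k : Fin 3) (hjk : j ≠ k) (n : ℕ) (Y : Finset ℕ) (hn : 1 ≤ n)
    (hnE : n ≤ E) (hY : Y ⊆ s) (hYj : ∀ q ∈ Y, i q = j ∧ e q = n)
    (hp : 9 * c0 ≤ ∑ q ∈ Y, c q) :
    ∑ q ∈ chS s c e i c0 k, (e q : ℝ) * c q < 6 * c0 ∧ 
      2 * ∑ q ∈ chS s c e i c0 k, c q ≤ ∑ q ∈ chS s c e i c0 k, (e q : ℝ) * c q := by
  have half : ∀ D : Finset ℕ, D ⊆ chS s c e i c0 k →
      2 * ∑ q ∈ D, c q ≤ ∑ q ∈ D, (e q : ℝ) * c q := by
    intro D hD
    rw [Finset.mul_sum]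
    apply Finset.sum_le_sum
    intro q hq
    have h1 := hD hq
    unfold chS at h1
    rw [Finset.mem_filter] at h1
    obtain ⟨hqs, hqk, hq1, hq6⟩ := h1
    have h2 : (2 : ℝ) ≤ (e q : ℝ) := by
      have := (hs q hqs).2
      have h3 : 2 ≤ e q := by omega
      exact_mod_cast h3
    exact mul_le_mul_of_nonneg_right h2 (hs q hqs).1.le
  have main : ∀ D : Finset ℕ, D ⊆ chS s c e i c0 k → ∑ q ∈ D, (e q : ℝ) * c q < 6 * c0 := by
    intro D
    induction D using Finset.induction_on with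
    | empty => intro _; simp only [Finset.sum_empty]; linarith
    | insert q D hqD ih =>
      intro hD
      have h1 := ih (fun x hx => hD (Finset.mem_insert_of_mem hx))
      have h2 := hD (Finset.mem_insert_self q D)
      unfold chS at h2
      rw [Finset.mem_filter] at h2
      obtain ⟨hqs, hqk, hq1, hq6⟩ := h2
      have h3 := half _ hD
      have h4 := chr_key hc0 hE1 hsum hR j k hjk n Y (insert q D) hn hnE hY
        (fun x hx => by
          have := hD hx
          unfold chS at this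
          exact (Finset.mem_filter.mp this).1) hYj
        (fun x hx => by
          have := hD hx
          unfold chS at this
          exact (Finset.mem_filter.mp this).2.1)
      rw [Finset.sum_insert hqD] at h3 ⊢
      rw [Finset.sum_insert hqD, Finset.sum_insert hqD] at h4
      rw [Finset.sum_insert hqD] at h3
      rcases h4 with h4 | h4 <;> linarith
  exact ⟨main _ (Finset.Subset.refl _), half _ (Finset.Subset.refl _)⟩

/-- a set of one exponent and large cost in every coordinate -/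
private theorem chr_pig (hc0 : 0 < c0) (hκ0 : 1 ≤ κ0) (h3 : 10000 * c0 * κ0 ≤ 1)
    (hE : κ0 ≤ c0 * E) (hE1 : 1 ≤ E) (hs : ∀ q ∈ s, 0 < c q ∧ 1 ≤ e q)
    (hsum : ∑ q ∈ s, c q ≤ 1) (hR : NR s c e i c0 E) (j : Fin 3)
    (hsz : siz s c e i j ≤ κ0) :
    ∃ (n : ℕ) (Y : Finset ℕ), 1 ≤ n ∧ n ≤ E ∧ Y ⊆ s ∧ (∀ q ∈ Y, i q = j ∧ e q = n) ∧
      150 * c0 ≤ ∑ q ∈ Y, c q := by
  by_contra hcon
  push Not at hcon
  set N := ⌊12 * κ0⌋₊ with hN
  have hN1 : (N : ℝ) ≤ 12 * κ0 := Nat.floor_le (by linarith)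
  have hN2 : 12 * κ0 < N + 1 := Nat.lt_floor_add_one _
  have hNE : N ≤ E := by
    have : (N : ℝ) ≤ E := by
      by_contra hlt
      rw [not_le] at hlt
      have h1 : c0 * E < c0 * (12 * κ0) := mul_lt_mul_of_pos_left (by linarith) hc0
      nlinarith
    exact_mod_cast this
  set G := s.filter (fun q => i q = j) with hG
  have hlow : ∑ q ∈ G.filter (fun q => e q ≤ N), c q ≤ N * (150 * c0) := by
    have hmap : ∀ q ∈ G.filter (fun q => e q ≤ N), e q ∈ Icc 1 N := by
      intro q hq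
      rw [Finset.mem_filter, hG, Finset.mem_filter] at hq
      rw [Finset.mem_Icc]
      exact ⟨(hs q hq.1.1).2, hq.2⟩
    rw [← Finset.sum_fiberwise_of_maps_to hmap]
    calc ∑ n ∈ Icc 1 N, ∑ q ∈ (G.filter (fun q => e q ≤ N)).filter (fun q => e q = n), c q
        ≤ ∑ n ∈ Icc 1 N, (150 * c0) := by
          apply Finset.sum_le_sum
          intro n hn
          rw [Finset.mem_Icc] at hn
          apply le_of_lt
          apply hcon n _ hn.1 (hn.2.trans hNE)
          · intro q hq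
            simp only [Finset.mem_filter, hG] at hq
            exact hq.1.1.1
          · intro q hq
            simp only [Finset.mem_filter, hG] at hq
            exact ⟨hq.1.1.2, hq.2⟩
      _ = N * (150 * c0) := by
          rw [Finset.sum_const, Nat.card_Icc, nsmul_eq_mul]; norm_num
  have hhigh : 12 * κ0 * ∑ q ∈ G.filter (fun q => ¬ e q ≤ N), c q ≤ κ0 := by
    refine le_trans ?_ hsz
    unfold siz
    rw [Finset.mul_sum]
    calc ∑ q ∈ G.filter (fun q => ¬ e q ≤ N), 12 * κ0 * c q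
        ≤ ∑ q ∈ G.filter (fun q => ¬ e q ≤ N), (e q : ℝ) * c q := by
          apply Finset.sum_le_sum
          intro q hq
          simp only [Finset.mem_filter, hG] at hq
          have h1 : N + 1 ≤ e q := by omega
          have h2 : (N : ℝ) + 1 ≤ e q := by exact_mod_cast h1
          exact mul_le_mul_of_nonneg_right (by linarith) (hs q hq.1.1).1.le
      _ ≤ ∑ q ∈ G, (e q : ℝ) * c q := by
          apply Finset.sum_le_sum_of_subset_of_nonneg (Finset.filter_subset _ _)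
          intro q hq _
          simp only [Finset.mem_filter, hG] at hq
          exact mul_nonneg (Nat.cast_nonneg _) (hs q hq.1).1.le
  have hsplit := Finset.sum_filter_add_sum_filter_not G (fun q => e q ≤ N) c
  have hcst : cst s c i j = ∑ q ∈ G, c q := rfl
  have hb := (chr_cst_bd hc0 hE1 hsum hR j).1
  have h5 : ∑ q ∈ G.filter (fun q => ¬ e q ≤ N), c q ≤ 1 / 12 := by
    by_contra hlt
    rw [not_le] at hlt
    nlinarith
  have h6 : (N : ℝ) * (150 * c0) ≤ 18 / 100 := by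
    have : (N : ℝ) * (150 * c0) ≤ 12 * κ0 * (150 * c0) :=
      mul_le_mul_of_nonneg_right hN1 (by linarith)
    nlinarith
  have h7 : 10000 * c0 ≤ 1 := by nlinarith
  rw [hcst, ← hsplit] at hb
  linarith

end facts

private theorem chr_core (s : Finset ℕ) (c : ℕ → ℝ) (e : ℕ → ℕ) (i : ℕ → Fin 3)
    (c0 τ κ0 ε κ : ℝ) (E : ℕ) (hc0 : 0 < c0) (h1 : 10000 * c0 ≤ ε) (h2 : 10000 * c0 ≤ τ)
    (h3 : 10000 * c0 * κ0 ≤ 1) (hκ0 : 1 ≤ κ0) (hE : κ0 ≤ c0 * E) (hE1 : 1 ≤ E)
    (t u d : Fin 3) (htu : t ≠ u) (htd : t ≠ d) (hud : u ≠ d)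
    (hs : ∀ q ∈ s, 0 < c q ∧ 1 ≤ e q) (hsum : ∑ q ∈ s, c q ≤ 1)
    (hκ1 : 1 / 3 + ε ≤ κ) (hκ2 : κ ≤ κ0) (ht1 : κ - c0 ≤ siz s c e i t)
    (hu1 : κ - c0 ≤ siz s c e i u) (ht2 : siz s c e i t ≤ κ) (hu2 : siz s c e i u ≤ κ)
    (hd2 : siz s c e i d ≤ κ) (hR : NR s c e i c0 E) (hN : NE s c e i c0 E) (r : ℕ)
    (hr : r ∈ chB s c e i c0 t)
    (hmax : ∀ q ∈ chB s c e i c0 u, c q ≤ c r) :
    ∃ y z : ℕ, y ∈ s ∧ z ∈ s ∧ i y = t ∧ i z = u ∧ e y = e z ∧ 2 ≤ e y ∧
      1 / 3 - τ ≤ c y ∧ c y ≤ 1 / 3 + τ ∧ 1 / 3 - τ ≤ c z ∧ c z ≤ 1 / 3 + τ ∧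
      siz s c e i t - (e y : ℝ) * c y ≤ τ ∧ siz s c e i u - (e z : ℝ) * c z ≤ τ ∧
      (siz s c e i d ≤ 1 / 3 + τ ∨
        ∃ q ∈ s, i q = d ∧ 2 ≤ e q ∧ 1 / 3 - τ ≤ c q ∧ c q ≤ 1 / 3 + τ) := by
  have h4 : 10000 * c0 ≤ 1 := by nlinarith
  -- sizes
  have hsz : ∀ k : Fin 3, siz s c e i k ≤ κ0 := by
    intro k
    rcases chr_cov t u d k htu htd hud with rfl | rfl | rfl <;> linarith
  have hcb := chr_cst_bd hc0 hE1 hsum hR
  -- membership
  have memB : ∀ k q, q ∈ chB s c e i c0 k → q ∈ s ∧ i q = k ∧ 2 ≤ e q ∧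
      6 * c0 ≤ (e q : ℝ) * c q := by
    intro k q hq
    unfold chB at hq
    rw [Finset.mem_filter] at hq
    obtain ⟨a1, a2, a3, a4⟩ := hq
    have := (hs q a1).2
    exact ⟨a1, a2, by omega, a4⟩
  -- big items cost > 147 c0
  have big147 : ∀ k q, q ∈ chB s c e i c0 k → 147 * c0 < c q := by
    intro k q hq
    obtain ⟨j, l, g1, g2, g3⟩ := chr_other k
    obtain ⟨n, Y, hn, hnE, hY, hYj, hYc⟩ := chr_pig hc0 hκ0 h3 hE hE1 hs hsum hR j (hsz j)
    have := chr_big hc0 hE1 hs hsum hR j k g1 n Y hn hnE hY hYj q hq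
    linarith
  -- small items
  have small : ∀ k, ∑ q ∈ chS s c e i c0 k, (e q : ℝ) * c q < 6 * c0 ∧
      2 * ∑ q ∈ chS s c e i c0 k, c q ≤ ∑ q ∈ chS s c e i c0 k, (e q : ℝ) * c q := by
    intro k
    obtain ⟨j, l, g1, g2, g3⟩ := chr_other k
    obtain ⟨n, Y, hn, hnE, hY, hYj, hYc⟩ := chr_pig hc0 hκ0 h3 hE hE1 hs hsum hR j (hsz j)
    exact chr_small hc0 hE1 hs hsum hR j k g1 n Y hn hnE hY hYj (by linarith)
  -- exponents
  have expE : ∀ q ∈ s, c0 ≤ c q → e q ≤ E := by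
    intro q hq hcq
    have b1 : (e q : ℝ) * c q ≤ κ0 := by
      refine le_trans ?_ (hsz (i q))
      unfold siz
      have hmem : q ∈ s.filter (fun p => i p = i q) := by
        rw [Finset.mem_filter]; exact ⟨hq, rfl⟩
      apply Finset.single_le_sum (f := fun p => (e p : ℝ) * c p) _ hmem
      intro p hp
      rw [Finset.mem_filter] at hp
      exact mul_nonneg (Nat.cast_nonneg _) (hs p hp.1).1.le
    by_contra hlt
    rw [not_le] at hlt
    have b2 : (E : ℝ) + 1 ≤ e q := by exact_mod_cast hlt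
    have b3 : ((E : ℝ) + 1) * c0 ≤ (e q : ℝ) * c q := by
      apply mul_le_mul b2 hcq hc0.le (Nat.cast_nonneg _)
    nlinarith
  -- decompositions
  have dc : ∀ k, cst s c i k = ∑ q ∈ chO s e i k, c q + ∑ q ∈ chS s c e i c0 k, c q +
      ∑ q ∈ chB s c e i c0 k, c q := fun k => chr_split s c e i c0 k c
  have ds : ∀ k, siz s c e i k = ∑ q ∈ chO s e i k, c q +
      ∑ q ∈ chS s c e i c0 k, (e q : ℝ) * c q +
      ∑ q ∈ chB s c e i c0 k, (e q : ℝ) * c q := by
    intro k
    have := chr_split s c e i c0 k (fun q => (e q : ℝ) * c q)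
    unfold siz
    rw [this]
    congr 2
    apply Finset.sum_congr rfl
    intro q hq
    unfold chO at hq
    rw [Finset.mem_filter] at hq
    rw [hq.2.2]; norm_num
  have nnO : ∀ k, 0 ≤ ∑ q ∈ chO s e i k, c q := by
    intro k
    apply Finset.sum_nonneg
    intro q hq
    unfold chO at hq
    rw [Finset.mem_filter] at hq
    exact (hs q hq.1).1.le
  have nnS : ∀ k, 0 ≤ ∑ q ∈ chS s c e i c0 k, c q := by
    intro k
    apply Finset.sum_nonneg
    intro q hq
    unfold chS at hq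
    rw [Finset.mem_filter] at hq
    exact (hs q hq.1).1.le
  have nnB : ∀ k, 0 ≤ ∑ q ∈ chB s c e i c0 k, c q := by
    intro k
    apply Finset.sum_nonneg
    intro q hq
    exact (hs q (memB k q hq).1).1.le
  obtain ⟨r1, r2, r3, r4⟩ := memB t r hr
  have r5 := big147 t r hr
  have r6 : e r ≤ E := expE r r1 (by linarith)
  -- single items
  have single : ∀ (j k : Fin 3) (p q : ℕ), j ≠ k → p ∈ s → i p = j → c0 ≤ c p →
      q ∈ chB s c e i c0 k → c p - 3 * c0 < c q := by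
    intro j k p q hjk hp hpj hpc hq
    have := chr_big hc0 hE1 hs hsum hR j k hjk (e p) {p} (hs p hp).2 (expE p hp hpc)
      (by simpa using hp) (by
        intro x hx; rw [Finset.mem_singleton] at hx; rw [hx]; exact ⟨hpj, rfl⟩) q hq
    simpa using this
  -- x
  have hBu : (chB s c e i c0 u).Nonempty := by
    rw [Finset.nonempty_iff_ne_empty]
    intro hem
    have := ds u
    rw [hem, Finset.sum_empty] at this
    have h5 := dc u
    have h6 := (hcb u).2
    have h7 := small u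
    have h8 := nnB u
    have h9 := nnS u
    linarith
  obtain ⟨x, hx⟩ := hBu
  obtain ⟨x1, x2, x3, x4⟩ := memB u x hx
  have x5 := big147 u x hx
  have x6 : e x ≤ E := expE x x1 (by linarith)
  have x7 : c x ≤ c r := hmax x hx
  have x8 : c r - 3 * c0 < c x := single t u r x htu r1 r2 (by linarith) hx
  -- ones of u and d
  have onesle : ∀ k, k ≠ t → ∑ q ∈ chO s e i k, c q ≤ c r + 3 * c0 := by
    intro k hk
    have := chr_big hc0 hE1 hs hsum hR k t hk 1 (chO s e i k) le_rfl hE1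
      (by unfold chO; exact Finset.filter_subset _ _)
      (by intro q hq; unfold chO at hq; rw [Finset.mem_filter] at hq; exact hq.2) r hr
    linarith
  have hperm := chr_perm s c i t u d htu htd hud
  rcases lt_or_ge (c r) (1 / 3 - 25 * c0) with hcase | hcase
  · -- energy
    exfalso
    have hBd : (chB s c e i c0 d).Nonempty := by
      rw [Finset.nonempty_iff_ne_empty]
      intro hem
      have a1 := dc d
      rw [hem, Finset.sum_empty] at a1
      have a2 := onesle d htd.symm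
      have a3 := small d
      have a4 := (hcb d).1
      linarith
    obtain ⟨q, hq⟩ := hBd
    obtain ⟨q1, q2, q3, q4⟩ := memB d q hq
    have q5 := big147 d q hq
    have q6 : e q ≤ E := expE q q1 (by linarith)
    have q7 : c r - 3 * c0 < c q := single t d r q htd r1 r2 (by linarith) hq
    have q8 : c q - 3 * c0 < c r := single d t q r htd.symm q1 q2 (by linarith) hr
    -- second variable
    have hY : ∃ (n : ℕ) (Y : Finset ℕ), 1 ≤ n ∧ n ≤ E ∧ Y ⊆ s ∧
        (∀ p ∈ Y, i p = u ∧ e p = n) ∧ x ∉ Y ∧ 20 * c0 < ∑ p ∈ Y, c p ∧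
        ∑ p ∈ Y, c p ≤ c r + 3 * c0 := by
      by_cases hex : ∃ x' ∈ chB s c e i c0 u, x' ≠ x
      · obtain ⟨x', hx', hne⟩ := hex
        obtain ⟨y1, y2, y3, y4⟩ := memB u x' hx'
        have y5 := big147 u x' hx'
        have y6 : c x' ≤ c r := hmax x' hx'
        refine ⟨e x', {x'}, (hs x' y1).2, expE x' y1 (by linarith), by simpa using y1, ?_, ?_,
          ?_, ?_⟩
        · intro p hp; rw [Finset.mem_singleton] at hp; rw [hp]; exact ⟨y2, rfl⟩
        · rw [Finset.mem_singleton]; exact fun h => hne h.symm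
        · simp only [Finset.sum_singleton]; linarith
        · simp only [Finset.sum_singleton]; linarith
      · push Not at hex
        have hB1 : chB s c e i c0 u = {x} := by
          apply Finset.eq_singleton_iff_unique_mem.mpr
          exact ⟨hx, hex⟩
        have a1 := dc u
        rw [hB1, Finset.sum_singleton] at a1
        have a3 := small u
        have a4 := (hcb u).1
        refine ⟨1, chO s e i u, le_rfl, hE1, by unfold chO; exact Finset.filter_subset _ _, ?_,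
          ?_, by linarith, onesle u htu.symm⟩
        · intro q hq; unfold chO at hq; rw [Finset.mem_filter] at hq; exact hq.2
        · intro hxO
          unfold chO at hxO
          rw [Finset.mem_filter] at hxO
          omega
    obtain ⟨n, Y, hn, hnE, hYs, hYu, hxY, hY1, hY2⟩ := hY
    have hct := (hcb t).1
    refine hN u t d n Y x q r htu.symm hud htd hn hnE hYs hYu x1 hxY x2 x6 q1 q2 q6 r1 r2 r3 x7
      (by linarith) (by linarith) ?_
    have hmx : max (∑ p ∈ Y, c p) (c x) ≤ c r + 3 * c0 := max_le hY2 (by linarith)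
    linarith
  · -- flat
    have hBt : ∀ r' ∈ chB s c e i c0 t, r' = r := by
      intro r' hr'
      by_contra hne
      have a1 := big147 t r' hr'
      have a2 : c r' + c r ≤ ∑ q ∈ chB s c e i c0 t, c q := by
        rw [← Finset.sum_pair hne]
        apply Finset.sum_le_sum_of_subset_of_nonneg
        · intro p hp
          rw [Finset.mem_insert, Finset.mem_singleton] at hp
          rcases hp with rfl | rfl
          · exact hr'
          · exact hr
        · intro p hp _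
          exact (hs p (memB t p hp).1).1.le
      have a3 := dc t
      have a4 := (hcb t).2
      have a5 := nnO t
      have a6 := nnS t
      linarith
    have hBt1 : chB s c e i c0 t = {r} := Finset.eq_singleton_iff_unique_mem.mpr ⟨hr, hBt⟩
    have hBu' : ∀ x' ∈ chB s c e i c0 u, x' = x := by
      intro r' hr'
      by_contra hne
      have a1 := big147 u r' hr'
      have a2 : c r' + c x ≤ ∑ q ∈ chB s c e i c0 u, c q := by
        rw [← Finset.sum_pair hne]
        apply Finset.sum_le_sum_of_subset_of_nonneg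
        · intro p hp
          rw [Finset.mem_insert, Finset.mem_singleton] at hp
          rcases hp with rfl | rfl
          · exact hr'
          · exact hx
        · intro p hp _
          exact (hs p (memB u p hp).1).1.le
      have a3 := dc u
      have a4 := (hcb u).2
      have a5 := nnO u
      have a6 := nnS u
      linarith
    have hBu1 : chB s c e i c0 u = {x} := Finset.eq_singleton_iff_unique_mem.mpr ⟨hx, hBu'⟩
    have ct := dc t
    have cu := dc u
    have st := ds t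
    have su := ds u
    rw [hBt1, Finset.sum_singleton] at ct st
    rw [hBu1, Finset.sum_singleton] at cu su
    have at1 := hcb t
    have au1 := hcb u
    have smt := small t
    have smu := small u
    have ot := nnO t
    have ou := nnO u
    have sst := nnS t
    have ssu := nnS u
    -- sizes of the rests
    have rt : siz s c e i t - (e r : ℝ) * c r < 32 * c0 := by linarith
    have ru : siz s c e i u - (e x : ℝ) * c x < 35 * c0 := by linarith
    have rt0 : 0 ≤ siz s c e i t - (e r : ℝ) * c r := by linarith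
    have ru0 : 0 ≤ siz s c e i u - (e x : ℝ) * c x := by linarith
    have crlt : c r < 1 / 3 + c0 := by linarith
    have cxgt : 1 / 3 - 28 * c0 < c x := by linarith
    have her : (e r : ℝ) * (1 / 3 - 28 * c0) ≤ κ0 := by
      have a1 : (e r : ℝ) * (1 / 3 - 28 * c0) ≤ (e r : ℝ) * c r :=
        mul_le_mul_of_nonneg_left (by linarith) (Nat.cast_nonneg _)
      have := hsz t
      linarith
    have hex : (e x : ℝ) * (1 / 3 - 28 * c0) ≤ κ0 := by
      have a1 : (e x : ℝ) * (1 / 3 - 28 * c0) ≤ (e x : ℝ) * c x :=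
        mul_le_mul_of_nonneg_left (by linarith) (Nat.cast_nonneg _)
      have := hsz u
      linarith
    have er0 : (0 : ℝ) ≤ e r := Nat.cast_nonneg _
    have ex0 : (0 : ℝ) ≤ e x := Nat.cast_nonneg _
    have er4 : (e r : ℝ) ≤ 4 * κ0 := by nlinarith
    have ex4 : (e x : ℝ) ≤ 4 * κ0 := by nlinarith
    have er5 : (e r : ℝ) * c0 ≤ 4 / 10000 := by nlinarith
    have ex5 : (e x : ℝ) * c0 ≤ 4 / 10000 := by nlinarith
    have hee : e r = e x := by
      rcases lt_trichotomy (e r) (e x) with hlt | heq | hgt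
      · exfalso
        have b1 : (e r : ℝ) + 1 ≤ e x := by exact_mod_cast hlt
        have b2 : ((e r : ℝ) + 1) * (1 / 3 - 28 * c0) ≤ (e x : ℝ) * c x :=
          mul_le_mul b1 cxgt.le (by linarith) ex0
        have b3 : (e r : ℝ) * c r ≤ (e r : ℝ) * (1 / 3 + c0) :=
          mul_le_mul_of_nonneg_left crlt.le er0
        nlinarith
      · exact heq
      · exfalso
        have b1 : (e x : ℝ) + 1 ≤ e r := by exact_mod_cast hgt
        have b2 : ((e x : ℝ) + 1) * (1 / 3 - 28 * c0) ≤ (e r : ℝ) * c r :=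
          mul_le_mul b1 (by linarith) (by linarith) er0
        have b3 : (e x : ℝ) * c x ≤ (e x : ℝ) * (1 / 3 + c0) :=
          mul_le_mul_of_nonneg_left (by linarith) ex0
        nlinarith
    refine ⟨r, x, r1, x1, r2, x2, hee, r3, by linarith, by linarith, by linarith, by linarith,
      by linarith, by linarith, ?_⟩
    rcases (chB s c e i c0 d).eq_empty_or_nonempty with hem | ⟨q, hq⟩
    · left
      have a1 := ds d
      have a2 := dc d
      rw [hem, Finset.sum_empty] at a1 a2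
      have a3 := small d
      have a4 := (hcb d).2
      have a5 := nnS d
      linarith
    · right
      obtain ⟨q1, q2, q3, q4⟩ := memB d q hq
      have q5 := big147 d q hq
      have q7 : c r - 3 * c0 < c q := single t d r q htd r1 r2 (by linarith) hq
      refine ⟨q, q1, q2, q3, by linarith, ?_⟩
      have a2 := dc d
      have a4 := (hcb d).2
      have a5 := nnS d
      have a6 := nnO d
      have a7 : c q ≤ ∑ p ∈ chB s c e i c0 d, c p := by
        apply Finset.single_le_sum (f := c) _ hq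
        intro p hp
        exact (hs p (memB d p hp).1).1.le
      linarith

theorem chr_thm : S_CHR := by
  intro ε κ0 τ hε hκ0 hτ
  set c0 : ℝ := min (min ε τ) (1 / κ0) / 10000 with hc0def
  have hκpos : 0 < κ0 := by linarith
  have hm : 0 < min (min ε τ) (1 / κ0) := by
    apply lt_min (lt_min hε hτ) (by positivity)
  have hc0 : 0 < c0 := by rw [hc0def]; positivity
  have h1 : 10000 * c0 ≤ ε := by
    have : min (min ε τ) (1 / κ0) ≤ ε := (min_le_left _ _).trans (min_le_left _ _)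
    rw [hc0def]; linarith
  have h2 : 10000 * c0 ≤ τ := by
    have : min (min ε τ) (1 / κ0) ≤ τ := (min_le_left _ _).trans (min_le_right _ _)
    rw [hc0def]; linarith
  have h3 : 10000 * c0 * κ0 ≤ 1 := by
    have h5 : min (min ε τ) (1 / κ0) ≤ 1 / κ0 := min_le_right _ _
    have h6 : 10000 * c0 ≤ 1 / κ0 := by rw [hc0def]; linarith
    calc 10000 * c0 * κ0 ≤ 1 / κ0 * κ0 := mul_le_mul_of_nonneg_right h6 hκpos.le
      _ = 1 := by field_simp
  refine ⟨c0, ⌈κ0 / c0⌉₊ + 1, hc0, ?_⟩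
  intro s c e i a b d κ hab had hbd hs hsum hκ1 hκ2 ha1 hb1 ha2 hb2 hd2
  set E : ℕ := ⌈κ0 / c0⌉₊ + 1 with hEdef
  have hE1 : 1 ≤ E := by omega
  have hE : κ0 ≤ c0 * E := by
    have h5 : κ0 / c0 ≤ (⌈κ0 / c0⌉₊ : ℝ) := Nat.le_ceil _
    have h6 : (⌈κ0 / c0⌉₊ : ℝ) ≤ (E : ℝ) := by rw [hEdef]; push_cast; linarith
    have h7 : κ0 / c0 ≤ E := h5.trans h6
    rw [div_le_iff₀ hc0] at h7
    linarith
  by_cases hR : NR s c e i c0 E
  swap
  · left
    unfold NR at hR
    push Not at hR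
    obtain ⟨j, k, l, n, Y, D, g1, g2, g3, g4, g5, g6, g7, g8, g9, g10, g11⟩ := hR
    exact ⟨j, k, l, n, Y, D, g1, g2, g3, g4, g5, g6, g7, g8, g9, g10, g11.1⟩
  right
  by_cases hN : NE s c e i c0 E
  swap
  · left
    unfold NE at hN
    push Not at hN
    obtain ⟨j, k, l, n, Y, x, q, r, g1, g2, g3, g4, g5, g6, g7, g8, g9, g10, g11, g12, g13, g14,
      g15, g16, g17, g18, g19, g20, g21⟩ := hN
    exact ⟨j, k, l, n, Y, x, q, r, g1, g2, g3, g4, g5, g6, g7, g8, g9, g10, g11, g12, g13, g14,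
      g15, g16, g17, g18, g19, g20, g21.1⟩
  right
  -- big items of a
  have hcb := chr_cst_bd hc0 hE1 hsum hR
  have h4 : 10000 * c0 ≤ 1 := by nlinarith
  have hsz : ∀ k : Fin 3, siz s c e i k ≤ κ0 := by
    intro k
    rcases chr_cov a b d k hab had hbd with rfl | rfl | rfl <;> linarith
  have hBa : (chB s c e i c0 a).Nonempty := by
    rw [Finset.nonempty_iff_ne_empty]
    intro hem
    obtain ⟨n, Y, hn, hnE, hY, hYj, hYc⟩ := chr_pig hc0 hκ0 h3 hE hE1 hs hsum hR b (hsz b)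
    have h7 := chr_small hc0 hE1 hs hsum hR b a hab.symm n Y hn hnE hY hYj (by linarith)
    have a1 := chr_split s c e i c0 a c
    have a2 := chr_split s c e i c0 a (fun q => (e q : ℝ) * c q)
    have a3 : ∑ q ∈ chO s e i a, (e q : ℝ) * c q = ∑ q ∈ chO s e i a, c q := by
      apply Finset.sum_congr rfl
      intro q hq
      unfold chO at hq
      rw [Finset.mem_filter] at hq
      rw [hq.2.2]; norm_num
    rw [hem, Finset.sum_empty] at a1 a2
    have a4 := (hcb a).2
    have a5 : 0 ≤ ∑ q ∈ chS s c e i c0 a, c q := by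
      apply Finset.sum_nonneg
      intro q hq
      unfold chS at hq
      rw [Finset.mem_filter] at hq
      exact (hs q hq.1).1.le
    unfold cst at a4
    unfold siz at ha1
    rw [a2, a3] at ha1
    rw [a1] at a4
    linarith
  obtain ⟨r, hr, hrmax⟩ := Finset.exists_max_image (chB s c e i c0 a ∪ chB s c e i c0 b) c
    (hBa.mono Finset.subset_union_left)
  rw [Finset.mem_union] at hr
  rcases hr with hr | hr
  · exact chr_core s c e i c0 τ κ0 ε κ E hc0 h1 h2 h3 hκ0 hE hE1 a b d hab had hbd hs hsum hκ1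
      hκ2 ha1 hb1 ha2 hb2 hd2 hR hN r hr
      (fun q hq => hrmax q (Finset.mem_union_right _ hq))
  · obtain ⟨y, z, g1, g2, g3, g4, g5, g6, g7, g8, g9, g10, g11, g12, g13⟩ :=
      chr_core s c e i c0 τ κ0 ε κ E hc0 h1 h2 h3 hκ0 hE hE1 b a d hab.symm hbd had hs hsum hκ1
      hκ2 hb1 ha1 hb2 ha2 hd2 hR hN r hr
      (fun q hq => hrmax q (Finset.mem_union_left _ hq))
    exact ⟨z, y, g2, g1, g4, g3, g5.symm, g5 ▸ g6, g9, g10, g7, g8, g12, g11, g13⟩

end Pool.MED
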