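import Pool.Agent.H47.MED.Stmts

/-!
# MED: final form, with the proportion
-/

set_option autoImplicit false

namespace Pool.MED

open Finset Filter Topology

/-- the abc triples of radical at most `X` with
`rad ^ (1 / 3) < a + b ≤ rad ^ (1 / 3 + ε)` -/
def Good (ε X : ℝ) : Set (ℕ × ℕ) :=
  {t | t ∈ Pool.VIO.Tri X ∧
    ((∏ p ∈ (t.1 * t.2 * (t.1 + t.2)).primeFactors, p : ℕ) : ℝ) ^ (1 / 3 : ℝ) <
      ((t.1 + t.2 : ℕ) : ℝ) ∧
    ((t.1 + t.2 : ℕ) : ℝ) ≤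
      ((∏ p ∈ (t.1 * t.2 * (t.1 + t.2)).primeFactors, p : ℕ) : ℝ) ^ (1 / 3 + ε)}

/-- the trivial lower bound -/
theorem lower_height (a b : ℕ) (ha : 0 < a) (hb : 0 < b) :
    ((∏ p ∈ (a * b * (a + b)).primeFactors, p : ℕ) : ℝ) ^ (1 / 3 : ℝ) < ((a + b : ℕ) : ℝ) := by
  have hn : 0 < a * b * (a + b) := by positivity
  have h1 : (∏ p ∈ (a * b * (a + b)).primeFactors, p) ≤ a * b * (a + b) :=
    Nat.le_of_dvd hn (Nat.prod_primeFactors_dvd _)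
  have h2 : a * b * (a + b) < (a + b) ^ 3 := by
    have h3 : a * b < (a + b) ^ 2 := by nlinarith [mul_pos ha hb]
    calc a * b * (a + b) < (a + b) ^ 2 * (a + b) := Nat.mul_lt_mul_of_pos_right h3 (by omega)
      _ = (a + b) ^ 3 := by ring
  have h4 : ((∏ p ∈ (a * b * (a + b)).primeFactors, p : ℕ) : ℝ) < ((a + b : ℕ) : ℝ) ^ (3 : ℝ) := by
    have : ((∏ p ∈ (a * b * (a + b)).primeFactors, p : ℕ) : ℝ) < ((a + b : ℕ) : ℝ) ^ 3 := by
      exact_mod_cast lt_of_le_of_lt h1 h2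
    rw [show (3 : ℝ) = ((3 : ℕ) : ℝ) by norm_num, Real.rpow_natCast]
    exact this
  have h5 := Real.rpow_lt_rpow (Nat.cast_nonneg _) h4 (by norm_num : (0 : ℝ) < 1 / 3)
  rwa [← Real.rpow_mul (Nat.cast_nonneg _), show (3 : ℝ) * (1 / 3) = 1 by norm_num,
    Real.rpow_one] at h5

theorem final_form (h : S_FIA) : ∀ ε : ℝ, 0 < ε →
    (∃ c C : ℝ, 0 < c ∧ ∀ X : ℝ, 2 ≤ X → (Pool.VIO.Tri X).Finite ∧
      X ^ (2 / 3 : ℝ) / 32 ≤ ((Pool.VIO.Tri X).ncard : ℝ) ∧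
      ((Pool.VIO.Exc (1 / 3 + ε) X).ncard : ℝ) ≤ C * X ^ (2 / 3 - c)) ∧
    Tendsto (fun X : ℝ => ((Good ε X).ncard : ℝ) / ((Pool.VIO.Tri X).ncard : ℝ)) atTop (𝓝 1) := by
  intro ε hε
  obtain ⟨c, C, hc, hX⟩ := h ε hε
  refine ⟨⟨c, C, hc, fun X h2 => ⟨(hX X h2).1, (hX X h2).2.1, (hX X h2).2.2.1⟩⟩, ?_⟩
  have key : ∀ X : ℝ, 2 ≤ X → 1 - C * X ^ (-c) ≤
      ((Good ε X).ncard : ℝ) / ((Pool.VIO.Tri X).ncard : ℝ) ∧
      ((Good ε X).ncard : ℝ) / ((Pool.VIO.Tri X).ncard : ℝ) ≤ 1 := by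
    intro X h2
    obtain ⟨h3, h4, h5, h6⟩ := hX X h2
    have hXp : 0 < X ^ (2 / 3 : ℝ) := Real.rpow_pos_of_pos (by linarith) _
    have hT : (0 : ℝ) < (Pool.VIO.Tri X).ncard := by linarith
    have hG : Good ε X ⊆ Pool.VIO.Tri X := fun t ht => ht.1
    have hE : Pool.VIO.Exc (1 / 3 + ε) X ⊆ Pool.VIO.Tri X := fun t ht => ht.1
    have hU : Pool.VIO.Tri X ⊆ Good ε X ∪ Pool.VIO.Exc (1 / 3 + ε) X := by
      intro t ht
      by_cases hlt : ((∏ p ∈ (t.1 * t.2 * (t.1 + t.2)).primeFactors, p : ℕ) : ℝ) ^ (1 / 3 + ε) <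
          ((t.1 + t.2 : ℕ) : ℝ)
      · exact Or.inr ⟨ht, hlt⟩
      · exact Or.inl ⟨ht, lower_height t.1 t.2 ht.1 ht.2.1, not_lt.mp hlt⟩
    have h7 : (Pool.VIO.Tri X).ncard ≤ (Good ε X).ncard + (Pool.VIO.Exc (1 / 3 + ε) X).ncard :=
      (Set.ncard_le_ncard hU ((h3.subset hG).union (h3.subset hE))).trans (Set.ncard_union_le _ _)
    have h8 : ((Pool.VIO.Tri X).ncard : ℝ) ≤
        (Good ε X).ncard + (Pool.VIO.Exc (1 / 3 + ε) X).ncard := by exact_mod_cast h7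
    have h9 : ((Good ε X).ncard : ℝ) ≤ (Pool.VIO.Tri X).ncard := by
      exact_mod_cast Set.ncard_le_ncard hG h3
    constructor
    · rw [le_div_iff₀ hT]
      linarith
    · rw [div_le_one hT]; exact h9
  have hlim : Tendsto (fun X : ℝ => 1 - C * X ^ (-c)) atTop (𝓝 1) := by
    have h1 := (tendsto_rpow_neg_atTop hc).const_mul C
    have h2 := h1.const_sub 1
    simpa using h2
  refine tendsto_of_tendsto_of_tendsto_of_le_of_le' hlim tendsto_const_nhds ?_ ?_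
  · filter_upwards [eventually_ge_atTop (2 : ℝ)] with X hX2
    exact (key X hX2).1
  · filter_upwards [eventually_ge_atTop (2 : ℝ)] with X hX2
    exact (key X hX2).2

end Pool.MED
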