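import Pool.Agent.H47.MED.Stmts

/-!
# MED, module MDD: triples of medium height
-/

set_option autoImplicit false

namespace Pool.MED

open Finset Pool.Agent.H98.ABCR Pool.SHA

/-- triples of bounded height -/
private theorem mdd_small (h : ℝ) (F : Finset (ℕ × ℕ)) (hF : ∀ v ∈ F, IsTri v ∧ hh v ≤ h) :
    (F.card : ℝ) ≤ (Real.exp h + 1) ^ 2 := by
  have hsub : F ⊆ Finset.range (⌊Real.exp h⌋₊ + 1) ×ˢ Finset.range (⌊Real.exp h⌋₊ + 1) := by
    intro v hv
    obtain ⟨⟨h1, h2, h3⟩, h4⟩ := hF v hv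
    have h5 : ((v.1 + v.2 : ℕ) : ℝ) ≤ Real.exp h := by
      have hpos : (0 : ℝ) < ((v.1 + v.2 : ℕ) : ℝ) := by
        exact_mod_cast (by omega : 0 < v.1 + v.2)
      unfold hh at h4
      calc ((v.1 + v.2 : ℕ) : ℝ) = Real.exp (Real.log ((v.1 + v.2 : ℕ) : ℝ)) :=
            (Real.exp_log hpos).symm
        _ ≤ Real.exp h := Real.exp_le_exp.mpr h4
    have h6 : v.1 + v.2 ≤ ⌊Real.exp h⌋₊ := Nat.le_floor h5
    rw [Finset.mem_product, Finset.mem_range, Finset.mem_range]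
    constructor <;> omega
  have h1 := Finset.card_le_card hsub
  rw [Finset.card_product, Finset.card_range] at h1
  have h2 : ((⌊Real.exp h⌋₊ : ℕ) : ℝ) ≤ Real.exp h := Nat.floor_le (Real.exp_pos _).le
  have h3 : (F.card : ℝ) ≤ ((⌊Real.exp h⌋₊ : ℝ) + 1) * ((⌊Real.exp h⌋₊ : ℝ) + 1) := by
    exact_mod_cast h1
  have h4 : (0 : ℝ) ≤ (⌊Real.exp h⌋₊ : ℝ) := Nat.cast_nonneg _
  nlinarith

theorem mdd_thm (h1 : S_CHT) (h2 : S_CNR) (h3 : S_CNE) (h4 : S_CNF) : S_MDD := by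
  classical
  intro ε κ0 hε hκ0
  obtain ⟨c1, X0, E, hc1, hX0, hch⟩ := h1 ε κ0 (1 / 200) hε hκ0 (by norm_num)
  set c : ℝ := min c1 (1 / 5) with hc
  have hcpos : 0 < c := lt_min hc1 (by norm_num)
  have hcc1 : c ≤ c1 := min_le_left _ _
  have hc5 : c ≤ 1 / 5 := min_le_right _ _
  obtain ⟨CR, hCR, hR⟩ := h2 E κ0 (c / 2) (by linarith) (by linarith)
  obtain ⟨CE, hCE, hE⟩ := h3 E κ0 (c / 2) (by linarith) (by linarith)
  obtain ⟨CF, hCF, hF⟩ := h4 κ0 (1 / 200) (by linarith) (by norm_num) (by norm_num)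
  set B : ℝ := (Real.exp (κ0 * Real.log X0) + 1) ^ 2 with hB
  have hB0 : 0 ≤ B := by positivity
  refine ⟨c / 2, CR + CE + CF + B, by linarith, by linarith, ?_⟩
  intro X F hX hFv
  have hX0' : 0 < X := by linarith
  have hp1 : 1 ≤ X ^ (2 / 3 - c / 2) := Real.one_le_rpow hX (by linarith)
  rcases lt_or_ge X X0 with hlt | hge
  · have h5 := mdd_small (κ0 * Real.log X0) F (fun v hv => by
      obtain ⟨a1, a2, a3, a4⟩ := hFv v hv
      refine ⟨a1, a4.trans ?_⟩
      apply mul_le_mul_of_nonneg_left _ (by linarith)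
      exact Real.log_le_log hX0' hlt.le)
    have h6 : B ≤ B * X ^ (2 / 3 - c / 2) := le_mul_of_one_le_right hB0 hp1
    have h7 : 0 ≤ (CR + CE + CF) * X ^ (2 / 3 - c / 2) := by
      apply mul_nonneg (by linarith) (by linarith)
    calc (F.card : ℝ) ≤ B := h5
      _ ≤ (CR + CE + CF + B) * X ^ (2 / 3 - c / 2) := by
          rw [add_mul (CR + CE + CF) B]; linarith
  · set Z : ℝ := X ^ (2 / 3 - c1) with hZ
    have hZ0 : 0 ≤ Z := by positivity
    set F1 := F.filter (fun v => OptR E Z v) with hF1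
    set F2 := F.filter (fun v => OptE E Z v) with hF2
    set F3 := F.filter (fun v => OptF X (1 / 200) v) with hF3
    have hsub : F ⊆ F1 ∪ F2 ∪ F3 := by
      intro v hv
      obtain ⟨a1, a2, a3, a4⟩ := hFv v hv
      rcases hch X v hge a1 a2 a3 a4 with h | h | h
      · exact Finset.mem_union_left _ (Finset.mem_union_left _ (Finset.mem_filter.mpr ⟨hv, h⟩))
      · exact Finset.mem_union_left _ (Finset.mem_union_right _ (Finset.mem_filter.mpr ⟨hv, h⟩))
      · exact Finset.mem_union_right _ (Finset.mem_filter.mpr ⟨hv, h⟩)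
    have hcard : (F.card : ℝ) ≤ F1.card + F2.card + F3.card := by
      have b1 := Finset.card_le_card hsub
      have b2 := Finset.card_union_le (F1 ∪ F2) F3
      have b3 := Finset.card_union_le F1 F2
      exact_mod_cast (b1.trans (b2.trans (Nat.add_le_add_right b3 _)))
    have k1 := hR X Z F1 hX hZ0 (fun v hv => by
      rw [hF1, Finset.mem_filter] at hv
      obtain ⟨a1, a2, a3, a4⟩ := hFv v hv.1
      exact ⟨a1, a2, a4, hv.2⟩)
    have k2 := hE X Z F2 hX hZ0 (fun v hv => by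
      rw [hF2, Finset.mem_filter] at hv
      obtain ⟨a1, a2, a3, a4⟩ := hFv v hv.1
      exact ⟨a1, a2, a4, hv.2⟩)
    have k3 := hF X F3 hX (fun v hv => by
      rw [hF3, Finset.mem_filter] at hv
      obtain ⟨a1, a2, a3, a4⟩ := hFv v hv.1
      exact ⟨a1, a2, a4, hv.2⟩)
    have k4 : X ^ (c / 2) * Z ≤ X ^ (2 / 3 - c / 2) := by
      rw [hZ, ← Real.rpow_add hX0']
      apply Real.rpow_le_rpow_of_exponent_le hX
      linarith
    have k5 : X ^ ((1 : ℝ) / 3 + 20 * (1 / 200)) ≤ X ^ (2 / 3 - c / 2) := by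
      apply Real.rpow_le_rpow_of_exponent_le hX
      linarith
    have k6 : CR * X ^ (c / 2) * Z ≤ CR * X ^ (2 / 3 - c / 2) := by
      rw [mul_assoc]; exact mul_le_mul_of_nonneg_left k4 (by linarith)
    have k7 : CE * X ^ (c / 2) * Z ≤ CE * X ^ (2 / 3 - c / 2) := by
      rw [mul_assoc]; exact mul_le_mul_of_nonneg_left k4 (by linarith)
    have k8 : CF * X ^ ((1 : ℝ) / 3 + 20 * (1 / 200)) ≤ CF * X ^ (2 / 3 - c / 2) :=
      mul_le_mul_of_nonneg_left k5 (by linarith)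
    have k9 : 0 ≤ B * X ^ (2 / 3 - c / 2) := by positivity
    calc (F.card : ℝ) ≤ F1.card + F2.card + F3.card := hcard
      _ ≤ (CR + CE + CF + B) * X ^ (2 / 3 - c / 2) := by
          have : (CR + CE + CF + B) * X ^ (2 / 3 - c / 2) = CR * X ^ (2 / 3 - c / 2) +
            CE * X ^ (2 / 3 - c / 2) + CF * X ^ (2 / 3 - c / 2) + B * X ^ (2 / 3 - c / 2) := by
            ring
          rw [this]
          linarith

end Pool.MED
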