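import Pool.Agent.H46.VIO.All
import Pool.Agent.H2.FEX.OMB
import Pool.Agent.H40.SHA.SRD
import Pool.Agent.H3.MED.TOF
import Pool.Agent.H25.MED.CHT
import Pool.Agent.H31.MED.CNF
import Pool.Agent.H31.MED.FIA
import Pool.Agent.H47.MED.CHR
import Pool.Agent.H47.MED.MDD
import Pool.Agent.H47.MED.Fin
import Pool.Agent.H49.MED.RTN
import Pool.Agent.H62.MED.CNR
import Pool.Agent.H78.MED.FLT
import Pool.Agent.H82.MED.RTP
import Pool.Agent.H88.MED.ENE
import Pool.Agent.H91.MED.CNE
import Pool.Agent.H99.MED.RTS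

/-!
# MED: assembly of THEOREM F
-/

set_option autoImplicit false

namespace Pool.MED

open Pool.Agent.H98.ABCR Pool.SHA

theorem all_RTN : S_RTN := rtn_thm rts_thm

theorem all_CNR : S_CNR := cnr_thm all_RTN srd_thm Pool.FEX.omb_thm

theorem all_CNE : S_CNE := cne_thm (ene_thm all_RTN (rtp_thm rts_thm)) srd_thm

theorem all_CNF : S_CNF := cnf_thm flt_thm rts_thm

/-- triples of medium height -/
theorem all_MDD : S_MDD := mdd_thm (cht_thm chr_thm) all_CNR all_CNE all_CNF

/-- all triples with `log (a + b) ≥ (1 / 3 + ε) log X` -/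
theorem all_TOF : S_TOF := tof_thm all_MDD Pool.VIO.all_MAV

/-- THEOREM F -/
theorem all_FIA : S_FIA := fia_thm all_TOF Pool.ABY.all_ALL

end Pool.MED
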